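import Pool.Agent.H23.NVK.MTargets

/-!
# The quadratic form is diagonal up to coprimality (helper54, M_CNV)
-/

set_option autoImplicit false

namespace Pool.Agent.H54.NVK

open Pool.Agent.H23.NVK
open Pool.Agent.H31.CN (GR E lin mo al et Mf Fi Mt)

open Classical in
/-- expansion over subsets -/
theorem ka_expand {R : Type} [CommRing R] {α : Type} (S₁ S₂ : Finset α) (e a : α → R) :
    ∏ p ∈ S₁ ∪ S₂, (if p ∈ S₁ ∧ p ∈ S₂ then e p + a p ^ 2 else a p) =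
      ∑ T ∈ (S₁ ∩ S₂).powerset, (∏ p ∈ T, e p) * ((∏ p ∈ S₁ \ T, a p) * ∏ p ∈ S₂ \ T, a p) := by
  have h1 : S₁ ∪ S₂ = (S₁ ∩ S₂) ∪ ((S₁ \ (S₁ ∩ S₂)) ∪ (S₂ \ (S₁ ∩ S₂))) := by
    ext p
    simp only [Finset.mem_union, Finset.mem_inter, Finset.mem_sdiff]
    tauto
  have h2 : Disjoint (S₁ ∩ S₂) ((S₁ \ (S₁ ∩ S₂)) ∪ (S₂ \ (S₁ ∩ S₂))) := by
    rw [Finset.disjoint_left]
    intro p
    simp only [Finset.mem_union, Finset.mem_inter, Finset.mem_sdiff]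
    tauto
  have h3 : Disjoint (S₁ \ (S₁ ∩ S₂)) (S₂ \ (S₁ ∩ S₂)) := by
    rw [Finset.disjoint_left]
    intro p
    simp only [Finset.mem_inter, Finset.mem_sdiff]
    tauto
  have h4 : ∏ p ∈ S₁ ∩ S₂, (if p ∈ S₁ ∧ p ∈ S₂ then e p + a p ^ 2 else a p) =
      ∏ p ∈ S₁ ∩ S₂, (e p + a p ^ 2) :=
    Finset.prod_congr rfl fun p hp => if_pos (Finset.mem_inter.1 hp)
  have h5 : ∏ p ∈ S₁ \ (S₁ ∩ S₂), (if p ∈ S₁ ∧ p ∈ S₂ then e p + a p ^ 2 else a p) =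
      ∏ p ∈ S₁ \ (S₁ ∩ S₂), a p :=
    Finset.prod_congr rfl fun p hp => if_neg fun h =>
      (Finset.mem_sdiff.1 hp).2 (Finset.mem_inter.2 h)
  have h6 : ∏ p ∈ S₂ \ (S₁ ∩ S₂), (if p ∈ S₁ ∧ p ∈ S₂ then e p + a p ^ 2 else a p) =
      ∏ p ∈ S₂ \ (S₁ ∩ S₂), a p :=
    Finset.prod_congr rfl fun p hp => if_neg fun h =>
      (Finset.mem_sdiff.1 hp).2 (Finset.mem_inter.2 h)
  rw [h1, Finset.prod_union h2, Finset.prod_union h3, h4, h5, h6, Finset.prod_add,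
    Finset.sum_mul]
  refine Finset.sum_congr rfl fun T hT => ?_
  rw [Finset.mem_powerset] at hT
  have h7 : ∀ S : Finset α, S₁ ∩ S₂ ⊆ S → ∏ p ∈ S \ T, a p =
      (∏ p ∈ S \ (S₁ ∩ S₂), a p) * ∏ p ∈ (S₁ ∩ S₂) \ T, a p := by
    intro S hS
    have h8 : S \ T = (S \ (S₁ ∩ S₂)) ∪ ((S₁ ∩ S₂) \ T) := by
      ext p
      simp only [Finset.mem_union, Finset.mem_sdiff]
      constructor
      · rintro ⟨h9, h10⟩
        by_cases h11 : p ∈ S₁ ∩ S₂
        · exact Or.inr ⟨h11, h10⟩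
        · exact Or.inl ⟨h9, h11⟩
      · rintro (⟨h9, h10⟩ | ⟨h9, h10⟩)
        · exact ⟨h9, fun h => h10 (hT h)⟩
        · exact ⟨hS h9, h10⟩
    rw [h8, Finset.prod_union]
    rw [Finset.disjoint_left]
    intro p h9 h10
    exact (Finset.mem_sdiff.1 h9).2 (Finset.mem_sdiff.1 h10).1
  rw [h7 S₁ Finset.inter_subset_left, h7 S₂ Finset.inter_subset_right, Finset.prod_pow]
  ring

open Classical in
theorem sub_mem {α : Type} {N : α → ℕ} {ρ δ : ℝ} (h : AxA N ρ δ) {y : ℝ} {S T : Finset α}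
    (hST : T ⊆ S) (hS : S ∈ SM N y) : T ∈ SM N y := by
  rw [h.mem_SM] at hS ⊢
  refine le_trans ?_ hS
  have h1 : nS N T ≤ nS N S := by
    unfold nS
    exact Finset.prod_le_prod_of_subset_of_one_le' hST fun p _ _ => by
      have := h.two p
      omega
  exact_mod_cast h1

open Classical in
/-- the element of a pair as a sum over the common subsets -/
theorem ka_sum {α : Type} {N : α → ℕ} {ρ δ : ℝ} (h : AxA N ρ δ) (y : ℝ) (S₁ S₂ : Finset α)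
    (h1 : S₁ ∈ SM N y) :
    ka N S₁ S₂ = ∑ d ∈ SM N y,
      if d ⊆ S₁ ∧ d ⊆ S₂ then (∏ p ∈ d, et (N p)) *
        ((∏ p ∈ S₁ \ d, al (N p)) * ∏ p ∈ S₂ \ d, al (N p)) else 0 := by
  rw [← Finset.sum_filter]
  have hka : ka N S₁ S₂ = ∑ T ∈ (S₁ ∩ S₂).powerset, (∏ p ∈ T, et (N p)) *
      ((∏ p ∈ S₁ \ T, al (N p)) * ∏ p ∈ S₂ \ T, al (N p)) := by
    rw [← ka_expand S₁ S₂ (fun p => et (N p)) (fun p => al (N p))]
    rfl
  rw [hka]
  refine Finset.sum_congr ?_ fun _ _ => rfl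
  ext T
  rw [Finset.mem_powerset, Finset.mem_filter, Finset.subset_inter_iff]
  exact ⟨fun hT => ⟨sub_mem h hT.1 h1, hT⟩, fun hT => hT.2⟩

open Classical in
/-- the supersets of `d` -/
theorem inner_sum {α : Type} {N : α → ℕ} {ρ δ : ℝ} (h : AxA N ρ δ) (y : ℝ) (c : Finset α → ℝ)
    (hc : ∀ S, S ∉ SM N y → c S = 0) (d : Finset α) :
    ∑ S ∈ (SM N y).filter (fun S => d ⊆ S), c S • ∏ p ∈ S \ d, al (N p) =
      ∑ S ∈ (SM N y).filter (fun S => Disjoint S d), c (d ∪ S) • ∏ p ∈ S, al (N p) := by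
  refine Finset.sum_bij_ne_zero (fun S _ _ => S \ d) ?_ ?_ ?_ ?_
  · intro S hS _
    obtain ⟨h1, h2⟩ := Finset.mem_filter.1 hS
    exact Finset.mem_filter.2 ⟨sub_mem h Finset.sdiff_subset h1, Finset.sdiff_disjoint⟩
  · intro S hS _ S' hS' _ he
    have h1 := (Finset.mem_filter.1 hS).2
    have h2 := (Finset.mem_filter.1 hS').2
    have he' : S \ d = S' \ d := he
    rw [← Finset.sdiff_union_of_subset h1, ← Finset.sdiff_union_of_subset h2, he']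
  · intro S hS hne
    obtain ⟨h1, h2⟩ := Finset.mem_filter.1 hS
    have hm : d ∪ S ∈ SM N y := by
      by_contra hh
      exact hne (by rw [hc _ hh, zero_smul])
    have he : (d ∪ S) \ d = S := Finset.union_sdiff_cancel_left h2.symm
    refine ⟨d ∪ S, Finset.mem_filter.2 ⟨hm, Finset.subset_union_left⟩, ?_, he⟩
    rw [he]
    exact hne
  · intro S hS _
    have h1 := (Finset.mem_filter.1 hS).2
    rw [Finset.union_sdiff_of_subset h1]

theorem pf_M_CNV : T_CNV := by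
  classical
  intro α N ρ δ hA y c hc
  have h1 : ∀ S₁ ∈ SM N y, ∀ S₂ ∈ SM N y, (c S₁ * c S₂) • ka N S₁ S₂ =
      ∑ d ∈ SM N y,
        (∏ p ∈ d, et (N p)) *
        ((if d ⊆ S₁ then c S₁ • ∏ p ∈ S₁ \ d, al (N p) else 0) *
        (if d ⊆ S₂ then c S₂ • ∏ p ∈ S₂ \ d, al (N p) else 0)) := by
    intro S₁ hS₁ S₂ hS₂
    have hk := ka_sum hA y S₁ S₂ hS₁
    rw [hk, Finset.smul_sum]
    refine Finset.sum_congr rfl fun d _ => ?_
    by_cases hd1 : d ⊆ S₁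
    · by_cases hd2 : d ⊆ S₂
      · rw [if_pos ⟨hd1, hd2⟩, if_pos hd1, if_pos hd2, smul_mul_smul_comm, mul_smul_comm]
      · rw [if_neg fun h => hd2 h.2, if_neg hd2, smul_zero, mul_zero, mul_zero]
    · rw [if_neg fun h => hd1 h.1, if_neg hd1, smul_zero, zero_mul, mul_zero]
  rw [Finset.sum_congr rfl (fun S₁ hS₁ => Finset.sum_congr rfl (fun S₂ hS₂ => h1 S₁ hS₁ S₂ hS₂))]
  rw [Finset.sum_congr rfl (fun S₁ _ => Finset.sum_comm), Finset.sum_comm]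
  refine Finset.sum_congr rfl fun d _ => ?_
  have h2 := inner_sum hA y c hc d
  have h3 : (∑ S ∈ (SM N y).filter (fun S => Disjoint S d), c (d ∪ S) • ∏ p ∈ S, al (N p)) =
      ∑ S ∈ SM N y, if d ⊆ S then c S • ∏ p ∈ S \ d, al (N p) else 0 := by
    rw [← Finset.sum_filter]
    refine Eq.trans ?_ (Eq.trans h2.symm ?_)
    · refine Finset.sum_congr ?_ fun S _ => ?_
      · ext S
        simp
      · rfl
    · refine Finset.sum_congr ?_ fun S _ => ?_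
      · ext S
        simp
      · congr 3
  rw [h3, sq, Finset.sum_mul_sum, Finset.mul_sum]
  refine Finset.sum_congr rfl fun S₁ _ => ?_
  rw [Finset.mul_sum]

end Pool.Agent.H54.NVK
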